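import Mathlib
import Pool.Agent.Run7.h301.TW.Main
import Pool.Agent.Run7.h301.TW.Gen
import Pool.Agent.Run7.h301.TW.Examples
import Pool.Agent.Y1.TS.Main

/-!
# The Tate conjecture for products of arbitrary smooth varieties with abelian varieties with a Frobenius
element whose Weil numbers lie in a forest of CM fields

Let `F v`, `v : V`, be finitely many CM fields with inclusions `F u → F v` for `u ≤ v`, where `V` is a
finite partially ordered set in which the elements below any element form a chain. So `V` is a forest,
and the fields below a given field form a tower: for instance a tower `F 0 ⊂ F 1 ⊂ ... ⊂ F n`, several
towers, or several towers with a common lower part. Let `π i ∈ F (w i)`, `i ∈ I`, be finitely many Weil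
numbers for `q = p ^ a`, possibly several in the same field, at any level. We assume:

* The automorphisms of `ℂ` act on the complex embeddings of the fields as freely as the inclusions
  permit (`FreeForest`). Two embeddings `x` of `F v` and `y` of `F w` agree on `F u` if `u ≤ v`,
  `u ≤ w` and they have the same restriction to `F u` (`Agree`). If `x` and `y` agree on no field of
  the forest, and `x` and `conj y` neither, then some automorphism of `ℂ` fixes `x` and maps `y` to
  `conj y`. If `x` agrees with `y` and with `y'` on the same fields, at least one, then some
  automorphism fixes `x` and maps `y` to `y'`.
* The norms are independent (`IndependentNorms`): for each `i₀` the slope deviations of the norms of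
  all the `π i` to all the fields `F u` contained in `F (w i)` and in `F (w i₀)` are linearly
  independent over `ℚ`, as functions of the embeddings of `F (w i₀)` in the algebraic closure of `ℚ_p`
  (`normDev`; for `F u = F (w i)` it is the slope deviation `2 ord_p (τ (π i)) - a` of `π i`, whose
  values are `a (2 λ - 1)` for the slopes `λ`). Nothing else is assumed on the Newton polygons.

If `x` and `y` agree on a CM field `F u` then no automorphism fixes `x` and maps `y` to `conj y`: the
pair `(x, y)` is rigid. The result `SeveralWeilNumbers` (helper142) of this run treats the case without
rigid pairs, the forests without inclusions, and the fields with rigid pairs are left open there. Every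
CM field that contains a smaller CM field has rigid pairs, for instance the fields `k R` with `k`
imaginary quadratic and `R` totally real, and in this case there are abelian varieties with exotic
classes (the Weil classes). In the theorem the norms to the smaller fields decide: for `k R` with the
Galois group of `R` doubly transitive the condition on one Weil number `π` is that its slopes are not
constant on the embeddings over an embedding of `k` and that their mean value is not `a / 2`; for
ordinary abelian varieties this says that the signature `(r, s)` over `k` satisfies `r s ≠ 0` and
`r ≠ s`.

Let `k` be a finitely generated field (of any characteristic), `A` an abelian variety over `k`, and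
let `γ` be a Frobenius element of the Galois group `Γ` of `k` at **one** place of good reduction, the
residue field having `q = p ^ a` elements, for which the characteristic polynomial on the Tate module
`V = V_ℓ (A)` is the product of the minimal polynomials of the Weil numbers `π i`. Let `U` be an
**arbitrary smooth variety** over `k`, proper or not, and `M = W_b H^b(U, ℚ_ℓ(j))`, or any other
representation of `Γ`, such that

* the eigenvalues of `γ` on `M` are roots of a polynomial `f ≠ 0` with rational coefficients all of
  whose complex roots `α` are unrelated to the fields `F (w i)` (`UnrelatedTo`): a function `n` on the
  complex embeddings of `F (w i)` with `n (conj φ) = - n φ` which is invariant under all automorphisms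
  of `ℂ` that fix a power of `α` is zero. This is so if for each embedding `ψ` of `F (w i)` some
  automorphism which fixes a power of `α` is the complex conjugation on the image of `ψ`: for
  instance, if a power of `α` lies in a field linearly disjoint from the normal closures of the
  `F (w i)`, or in a totally real field.

The first part of the theorem says (`TateClassesSplit`): **the classes in `H^j(A ^ r) ⊗ M` which are
fixed by an open subgroup of `Γ` are zero for odd `j`, and linear combinations of products of `m` Tate
classes of degree two on `A ^ r` (that is, of divisor classes, by Tate, Zarhin and Faltings) and of
Tate classes in `M(-m)` for `j = 2 m`.** The classes in `H^j(A ^ r) ⊗ M` are the alternating maps of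
`j` variables from `V ^ r` to `M`. So for all these `A` and all these smooth varieties `U` the Tate
conjecture for `A ^ r × U` (all codimensions, all `r`, over all finite extensions) is equivalent to
the Tate conjecture for `U`. If `U` is a point it is the Tate conjecture for all powers of `A`. The
hypotheses on `V` (`IsPolarised`) are the Weil pairing and the semisimplicity (Tate, Zarhin,
Faltings). The abelian variety `A` can be absolutely simple: only its reduction at one place is a
product of several abelian varieties.

In the second part (`HoldsForMostForestTypes`) the Weil numbers have prescribed slope types. We fix an
isomorphism `ν` of the algebraic closure of `ℚ_p` with `ℂ`. A CM type `Φ` of a CM field `E`, a function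
`M` with nonzero integral values on the complex embeddings of `E` and a real number `c ≠ 0` prescribe
the slopes `(a + c M) / 2` (at the embeddings in `Φ`) and `(a - c M) / 2` (outside of `Φ`) of a Weil
number for `p ^ a` in `E` (`HasType`; the case `M = 1`, `c = a` is the case of ordinary abelian
varieties, `M ≠ 0` says that `a / 2` is not a slope). For given `w 0`, ..., `w (r - 1)` and given
weights `M i` on `F (w i)` **the proportion of the families of CM types `Φ i` of the fields `F (w i)`
for which the conclusion of the first part is false for some Weil numbers with these slope types is at
most** `exceptional F w`, the sum over all `i` and all the fields `F u ⊆ F (w i)` of `b (t) ^ (d - j)`,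
where `b (t)` is the largest probability `binomial (t, t / 2) / 2 ^ t` of a value of a sum of `t`
independent signs, `t = [F (w i) : F u]`, `2 d` is the difference of the degrees of `F u` and of the
largest field of the forest below `F u` (or the degree of `F u`, if there is none), and `j` is the
number of the `i' < i` with `F u ⊆ F (w i')`. So almost all families are good if the steps of the towers
are large, or (for the lowest step) if `t` is large and there is one Weil number above it: for one
ordinary Weil number in `k R` of degree `2 g` the bound is `binomial (g, g / 2) / 2 ^ g + 2 ^ (1 - g)`.

The third part (`ForestExamples`) gives examples of free forests with rigid pairs: the CM fields `E`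
with an imaginary quadratic subfield for which the automorphisms of `ℂ` act doubly transitively on the
embeddings of the maximal real subfield `K`. Families of CM fields without rigid pairs are free forests
without inclusions (`freeForest_of_noRigidPairs` in the file TW.Examples), so the first part of the
theorem contains the first part of `SeveralWeilNumbers`.

The condition on the norms is the best possible (`exactInForests` in the file TW.Exact, not used here):
if the inclusions are proper then for Weil numbers that are algebraic integers the independence of the
norms is equivalent to the maximality of the angle rank, that is, all multiplicative relations between
the conjugates of the `π i` and `p` are trivial. If the norms are dependent then there are exotic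
classes on some product of the abelian varieties.

The proof. A multiplicative relation gives a function `c` on the pairs `(i, y)`, `y` an embedding of
`F (w i)`, with `c (i, conj y) = - c (i, y)` and `∑ c (i, y) D i (σ y) = 0` for all automorphisms `σ`,
where `D i` is the slope deviation of `π i`. If `c (i₀, x) ≠ 0` then we take the mean value of the
translates of `c` under the automorphisms (of a finite Galois group) that fix `x`. It is not zero at
`(i₀, x)`. It is zero at `(i, y)` if `x` agrees neither with `y` nor with `conj y` on any field, and
otherwise it depends only on the fields on which `x` and `y` (or `conj y`) agree. These fields are the
fields below some field, so the mean value is a linear combination of the characteristic functions of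
the sets of the `y` that agree with `x` on `F u`, made odd, and the relation becomes a linear relation
between the slope deviations of the norms to the fields `F u`. So the angle rank is maximal
(`MaximalAngleRank`). If there is an element of `M` in the relation then we compare
the relation with its images under the automorphisms which fix a power of the eigenvalue (starting
files, Y1.TS). For the second part: if the norms are dependent then for some `u` and `i` the
norm to `F u` of the signed weight function of `Φ i` is in the sum of the span of the norms of those
with smaller index and of the space of the odd functions that come from smaller fields. A subspace of
dimension `d` of the functions on `h` points contains a vector of independent sums of `t` signs with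
nonzero weights at most with the probability `b (t) ^ (h - d)`, by the Littlewood-Offord theorem of
Erdős.
-/

set_option autoImplicit false

namespace Pool.Agent.Results.MP_2a05c8_ag.WeilNumberForests

open NumberField Module Pool.Agent.H204R3.CM Pool.Agent.Y1.CT Pool.Agent.Y1.TS
  Pool.Agent.Run7.h301.TW

/-- **The Tate conjecture for `A ^ r × U` is equivalent to the Tate conjecture for `U`, for the
abelian varieties `A` over finitely generated fields with a Frobenius element whose Weil numbers lie in
a free forest of CM fields and have independent norms, and all unrelated smooth varieties `U`.** -/
theorem result :
    (∀ (p : ℕ) [Fact p.Prime] (a : ℕ) (V : Type) [Fintype V] [PartialOrder V] (F : V → Type)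
      [∀ v, Field (F v)] [∀ v, NumberField (F v)] [∀ v, IsCMField (F v)]
      (inc : Inclusions F) (I : Type) [Fintype I] (w : I → V)
      (π : ∀ i, F (w i)), FreeForest F inc → IndependentNorms p a inc w π →
        TateClassesSplit (p := p) a (fun i => F (w i)) π) ∧
    (∀ (p : ℕ) [Fact p.Prime] (ν : PadicAlgCl p ≃+* ℂ) (V : Type) [Fintype V] [PartialOrder V]
      (F : V → Type) [∀ v, Field (F v)] [∀ v, NumberField (F v)] [∀ v, IsCMField (F v)]
      (inc : Inclusions F) (r : ℕ) (w : Fin r → V)
      (M : ∀ i, (F (w i) →+* ℂ) → ℤ), FreeForest F inc → (∀ i φ, M i φ ≠ 0) →
        ({Φ : ∀ i, Set (F (w i) →+* ℂ) | (∀ i, IsCMType (Φ i)) ∧
          ¬ ForAllWeil ν (fun i => F (w i)) M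
            (fun a π => TateClassesSplit (p := p) a (fun i => F (w i)) π) Φ}.ncard : ℝ) ≤
              exceptional F w * ∏ i, 2 ^ half (F (w i))) ∧ ForestExamples := by
  refine ⟨?_, ?_, forestExamples⟩
  · intro p _ a V _ _ F _ _ _ inc I _ w π hF hπ
    have hang := angle_of_forest hF hπ
    exact split_of_angle (F := fun i => F (w i))
      (fun i => adjoin_of_angle (ne_zero_of_weil hπ.weil) hang i) hπ.weil hang
  · intro p _ ν V _ _ F _ _ _ inc r w M hF hM
    exact ncard_forest_angle ν hF hM _ fun Φ h a π ha hπ =>
      split_of_angle (F := fun i => F (w i)) (fun i => (hπ i).gen) (fun i => (hπ i).weil)
        (h a π ha hπ)

end Pool.Agent.Results.MP_2a05c8_ag.WeilNumberForests
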